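import Pool.Agent.Helper43.RD.Both

set_option autoImplicit false

namespace Pool.Agent.Results.MP_44b994_al.Full

open Matrix MulOpposite

universe u w

/-- A submodule `A` of an `S`-module `B` is RD-pure: `rB ∩ A = rA` for every `r` in `S`.
For `S = Rᵐᵒᵖ` the `S`-modules are the right `R`-modules, and this says `A ∩ Br = Ar`. -/
def RDPureIn {S : Type u} [Ring S] {B : Type w} [AddCommGroup B] [Module S B]
    (A : Submodule S B) : Prop :=
  ∀ (r : S) (a : B), a ∈ A → (∃ b : B, r • b = a) → ∃ a' : B, a' ∈ A ∧ r • a' = a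

/-- A submodule `A` of an `S`-module `B` is pure: every finite system of linear equations
with parameters in `A` that is solvable in `B` is solvable in `A`. -/
def PureIn {S : Type u} [Ring S] {B : Type w} [AddCommGroup B] [Module S B]
    (A : Submodule S B) : Prop :=
  ∀ (m n : ℕ) (r : Matrix (Fin m) (Fin n) S) (a : Fin m → B), (∀ i, a i ∈ A) →
    (∃ x : Fin n → B, ∀ i, ∑ j, r i j • x j = a i) →
    ∃ y : Fin n → B, (∀ j, y j ∈ A) ∧ ∀ i, ∑ j, r i j • y j = a i

theorem pureIn_rd {S : Type u} [Ring S] {B : Type w} [AddCommGroup B] [Module S B]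
    {A : Submodule S B} (h : PureIn A) : RDPureIn A := by
  intro r a ha hb
  obtain ⟨b, hb⟩ := hb
  obtain ⟨y, hy1, hy2⟩ := h 1 1 (fun _ _ => r) (fun _ => a) (fun _ => ha)
    ⟨fun _ => b, fun _ => by simpa using hb⟩
  exact ⟨y 0, hy1 0, by simpa using hy2 0⟩

/-- Over every field `k` there is a `k`-algebra `R` which is a domain, over which RD-purity and
purity coincide for right modules and for left modules, and which is neither a right nor a left
Ore domain. -/
theorem result : ∀ (k : Type) [Field k], ∃ (R : Type) (_ : Ring R) (_ : Algebra k R),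
    IsDomain R ∧
    (∀ (B : Type w) [AddCommGroup B] [Module Rᵐᵒᵖ B] (A : Submodule Rᵐᵒᵖ B),
      RDPureIn A ↔ PureIn A) ∧
    (∀ (B : Type w) [AddCommGroup B] [Module R B] (A : Submodule R B),
      RDPureIn A ↔ PureIn A) ∧
    ∃ a b : R, a ≠ 0 ∧ b ≠ 0 ∧ (∀ x y : R, a * x = b * y → x = 0 ∧ y = 0) ∧
      (∀ x y : R, x * a = y * b → x = 0 ∧ y = 0) := by
  intro k _
  let X : Helper43.RD.Ob k := Helper43.RD.freeOb k
  let a : X.G 0 := FreeAlgebra.ι k (0 : Fin 2)
  let b : X.G 0 := FreeAlgebra.ι k (1 : Fin 2)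
  have ha : a ≠ 0 := FreeAlgebra.ι_ne_zero _
  have hb : b ≠ 0 := FreeAlgebra.ι_ne_zero _
  have hab : ∀ x y : X.G 0, a * x = b * y → x = 0 ∧ y = 0 :=
    fun x y h => Helper43.RD.freeAlgebra_not_ore k h
  have hab' : ∀ x y : X.G 0, x * a = y * b → x = 0 ∧ y = 0 :=
    fun x y h => Helper43.RDU.freeAlgebra_not_ore_left k h
  have hdom := X.lim_isDomain
  have ha' : X.inc 0 a ≠ 0 := fun h => ha (X.inc_injective 0 (h.trans (map_zero _).symm))
  have hb' : X.inc 0 b ≠ 0 := fun h => hb (X.inc_injective 0 (h.trans (map_zero _).symm))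
  refine ⟨X.Lim, inferInstance, Helper43.RDU.limAlgebra X, hdom, ?_, ?_,
    X.inc 0 a, X.inc 0 b, ha', hb', ?_, ?_⟩
  · intro B _ _ A
    refine ⟨?_, pureIn_rd⟩
    intro hA m n r c hc hx
    obtain ⟨x, hx⟩ := hx
    have hA' : Helper43.RDU.RDPure A := fun r x hx => hA r (r • x) hx ⟨x, rfl⟩
    obtain ⟨y, hy1, hy2⟩ := Helper43.RDU.lim_rd_right X hA' r x (fun i => by
      have h1 : Helper43.RDU.act r x i = c i := hx i
      rw [h1]
      exact hc i)
    exact ⟨y, hy1, fun i => (congrFun hy2 i).trans (hx i)⟩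
  · intro B _ _ A
    refine ⟨?_, pureIn_rd⟩
    intro hA m n r c hc hx
    obtain ⟨x, hx⟩ := hx
    have hA' : Helper43.RDU.RDPure A := fun r x hx => hA r (r • x) hx ⟨x, rfl⟩
    obtain ⟨y, hy1, hy2⟩ := Helper43.RDU.lim_rd_left X hA' r x (fun i => by
      have h1 : Helper43.RDU.act r x i = c i := hx i
      rw [h1]
      exact hc i)
    exact ⟨y, hy1, fun i => (congrFun hy2 i).trans (hx i)⟩
  · intro x y h
    have hx := X.lim_not_ore a b hab x y h
    refine ⟨hx, ?_⟩
    rw [hx, mul_zero] at h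
    exact (mul_eq_zero.1 h.symm).resolve_left hb'
  · intro x y h
    have hx := Helper43.RDU.lim_not_ore_left X a b hab' x y h
    refine ⟨hx, ?_⟩
    rw [hx, zero_mul] at h
    exact (mul_eq_zero.1 h.symm).resolve_right hb'

end Pool.Agent.Results.MP_44b994_al.Full
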